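import Pool.Agent.H72.BF.Targets2

/-!
Board bf_modules (MP_3cf473_nt), module GAL: a tuple of linear forms without relations of degree
at most `d` (induction on the number of coordinates, from GST).
-/

open Polynomial Finset Filter

namespace Pool.Agent.H14.BF

open Pool.Agent.H72.BF

theorem totalDegree_aeval_le {K σ τ : Type} [Field K] (s : σ → MvPolynomial τ K)
    (hs : ∀ i, (s i).totalDegree ≤ 1) (P : MvPolynomial σ K) :
    (MvPolynomial.aeval s P).totalDegree ≤ P.totalDegree := by
  classical
  conv_lhs => rw [MvPolynomial.as_sum P]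
  rw [map_sum]
  refine MvPolynomial.totalDegree_finsetSum_le fun m hm => ?_
  rw [MvPolynomial.aeval_monomial]
  refine (MvPolynomial.totalDegree_mul _ _).trans ?_
  rw [MvPolynomial.algebraMap_eq, MvPolynomial.totalDegree_C, zero_add]
  refine le_trans ?_ (MvPolynomial.le_totalDegree hm)
  rw [Finsupp.prod, Finsupp.sum]
  refine (MvPolynomial.totalDegree_finsetProd _ _).trans (Finset.sum_le_sum fun i _ => ?_)
  refine (MvPolynomial.totalDegree_pow _ _).trans ?_
  calc m i * (s i).totalDegree ≤ m i * 1 := Nat.mul_le_mul_left _ (hs i)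
    _ = m i := mul_one _

theorem gal (hgst : T_GST) : T_GAL := by
  intro K F _ _ _ _ N M d x0 y hli
  classical
  induction N with
  | zero =>
    intro _
    refine ⟨fun i => i.elim0, fun P _ hP => ?_⟩
    have htr : Transcendental K x0 := by
      intro halg
      have hint : IsIntegral K x0 := halg.isIntegral
      have h1 : (minpoly K x0).degree = 1 :=
        IsAlgClosed.degree_eq_one_of_irreducible K (minpoly.irreducible hint)
      obtain ⟨a, ha⟩ := RingHom.mem_range.mp (minpoly.mem_range_of_degree_eq_one K x0 h1)
      rw [Fintype.linearIndependent_iff] at hli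
      have h2 := hli (Fin.cons a (Fin.cons (-1) 0)) (by
        rw [Fin.sum_univ_succ, Fin.sum_univ_succ]
        simp [Algebra.smul_def, ha]) 1
      have h3 : (Fin.cons a (Fin.cons (-1) 0) : Fin (M + 2) → K) 1 = -1 := rfl
      rw [h3] at h2
      simp at h2
    have hai : AlgebraicIndependent K (fun _ : Fin 1 => x0) :=
      (algebraicIndependent_unique_type_iff (ι := Fin 1)).2 htr
    rw [algebraicIndependent_iff] at hai
    refine hai P ?_
    rw [← hP]
    congr 2
    ext i
    rw [Subsingleton.elim i 0]
    rfl
  | succ N ih =>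
    intro hle
    have hle' : (N + d).choose d ≤ M + 1 :=
      (Nat.choose_le_choose d (by omega)).trans hle
    obtain ⟨c, hc⟩ := ih hle'
    set x : Fin (N + 1) → F := Fin.cons x0 (fun i => ∑ j, algebraMap K F (c i j) * y j) with hx
    set w : Fin (M + 2) → F := Fin.cons 1 (Fin.cons x0 y) with hw
    set V := Submodule.span K (Set.range w) with hV
    have hVf : FiniteDimensional K V := FiniteDimensional.span_of_finite K (Set.finite_range w)
    have hfr : Module.finrank K V = M + 2 := by
      rw [hV, finrank_span_eq_card hli, Fintype.card_fin]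
    obtain ⟨z, hzV, hz0, hz⟩ := hgst K F (N + 1) d x hc V hVf (by rw [hfr]; omega)
    obtain ⟨g, hg⟩ := (Submodule.mem_span_range_iff_exists_fun K).1 hzV
    set c' : Fin M → K := fun j => g j.succ.succ with hc'
    set y' : F := ∑ j, algebraMap K F (c' j) * y j with hy'
    have hzeq : z = algebraMap K F (g 0) + algebraMap K F (g 1) * x0 + y' := by
      rw [← hg, Fin.sum_univ_succ, Fin.sum_univ_succ]
      simp only [hw, Fin.cons_zero, Fin.cons_succ, Algebra.smul_def, mul_one, hy', hc']
      exact (add_assoc _ _ _).symm
    refine ⟨Fin.snoc c c', fun P hP hP0 => ?_⟩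
    have hsn : (Fin.cons x0 (fun i : Fin (N + 1) =>
        ∑ j, algebraMap K F ((Fin.snoc c c' : Fin (N + 1) → Fin M → K) i j) * y j) :
        Fin (N + 2) → F) = Fin.snoc x y' := by
      rw [hx, ← Fin.cons_snoc_eq_snoc_cons]
      congr 1
      ext i
      refine Fin.lastCases ?_ (fun j => ?_) i
      · simp [hy']
      · simp
    rw [hsn] at hP0
    let s : Fin (N + 2) → MvPolynomial (Fin (N + 2)) K :=
      Fin.snoc (fun i => MvPolynomial.X (Fin.castSucc i))
        (MvPolynomial.X (Fin.last (N + 1)) - MvPolynomial.C (g 0) -
          MvPolynomial.C (g 1) * MvPolynomial.X (Fin.castSucc 0))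
    let s' : Fin (N + 2) → MvPolynomial (Fin (N + 2)) K :=
      Fin.snoc (fun i => MvPolynomial.X (Fin.castSucc i))
        (MvPolynomial.X (Fin.last (N + 1)) + MvPolynomial.C (g 0) +
          MvPolynomial.C (g 1) * MvPolynomial.X (Fin.castSucc 0))
    have hs1 : ∀ i, (s i).totalDegree ≤ 1 := by
      intro i
      refine Fin.lastCases ?_ (fun j => ?_) i
      · simp only [s, Fin.snoc_last]
        refine (MvPolynomial.totalDegree_sub _ _).trans (max_le ?_ ?_)
        · refine (MvPolynomial.totalDegree_sub_C_le _ _).trans ?_
          rw [MvPolynomial.totalDegree_X]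
        · refine (MvPolynomial.totalDegree_mul _ _).trans ?_
          rw [MvPolynomial.totalDegree_C, MvPolynomial.totalDegree_X]
      · simp only [s, Fin.snoc_castSucc, MvPolynomial.totalDegree_X, le_refl]
    have hinv : MvPolynomial.aeval s' (MvPolynomial.aeval s P) = P := by
      have h1 : (MvPolynomial.aeval s').comp (MvPolynomial.aeval s) =
          AlgHom.id K (MvPolynomial (Fin (N + 2)) K) := by
        apply MvPolynomial.algHom_ext
        intro i
        refine Fin.lastCases ?_ (fun j => ?_) i
        · have hs'0 : s' (Fin.castSucc 0) = MvPolynomial.X (Fin.castSucc 0) := by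
            simp only [s', Fin.snoc_castSucc]
          have hs'l : s' (Fin.last (N + 1)) = MvPolynomial.X (Fin.last (N + 1)) +
              MvPolynomial.C (g 0) + MvPolynomial.C (g 1) * MvPolynomial.X (Fin.castSucc 0) := by
            simp only [s', Fin.snoc_last]
          rw [AlgHom.comp_apply, MvPolynomial.aeval_X]
          simp only [s, Fin.snoc_last, map_sub, map_mul, MvPolynomial.aeval_X,
            MvPolynomial.aeval_C, hs'0, hs'l, MvPolynomial.algebraMap_eq, AlgHom.id_apply]
          ring
        · rw [AlgHom.comp_apply, MvPolynomial.aeval_X]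
          simp only [s, Fin.snoc_castSucc, MvPolynomial.aeval_X, AlgHom.id_apply, s']
      have h2 := congrArg (fun f => f P) h1
      simpa using h2
    have hQ : MvPolynomial.aeval (Fin.snoc x z : Fin (N + 2) → F) (MvPolynomial.aeval s P) = 0 := by
      rw [← AlgHom.comp_apply, MvPolynomial.comp_aeval, ← hP0]
      congr 2
      ext i
      refine Fin.lastCases ?_ (fun j => ?_) i
      · simp only [s, Fin.snoc_last, map_sub, map_mul, MvPolynomial.aeval_X,
          MvPolynomial.aeval_C, Fin.snoc_castSucc]
        rw [hzeq, hx, Fin.cons_zero]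
        ring
      · simp only [s, Fin.snoc_castSucc, MvPolynomial.aeval_X]
    have hfin := hz _ ((totalDegree_aeval_le s hs1 P).trans hP) hQ
    rw [hfin, map_zero] at hinv
    exact hinv.symm

end Pool.Agent.H14.BF
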