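import Pool.Agent.H72.BF.Targets4

open Polynomial Finset Filter

namespace Pool.Agent.H14.BF

open Pool.Agent.H72.BF

theorem gcl_mem {K F : Type} [Field K] [Field F] [Algebra K F] {r : ℕ} (t : Fin r → F)
    (p : MvPolynomial (Fin r) K) : MvPolynomial.aeval t p ∈ EE' K t := by
  let t' : Fin r → EE' K t := fun i =>
    ⟨t i, IntermediateField.subset_adjoin K _ (Set.mem_range_self i)⟩
  have : ((EE' K t).val.comp (MvPolynomial.aeval t' : MvPolynomial (Fin r) K →ₐ[K] EE' K t)) =
      MvPolynomial.aeval t := by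
    apply MvPolynomial.algHom_ext
    intro i
    simp [t']
  rw [← this]
  exact Subtype.mem _

theorem gcl (h1 : T_CXR) (h2 : T_FLD) (h3 : T_POLE) (h4 : T_ZD) (_h5 : T_FIA) (h6 : T_RFI) :
    T_GCL := by
  intro r d
  obtain ⟨s, hs⟩ := h2 ((2 * d + 1) * d ^ 2)
  obtain ⟨β, hβ⟩ := h4 r ((2 * d + 1) * d ^ 2) (2 * ((2 * d + 1) * d ^ 2) * ((2 * d + 1) * d ^ 2) +
    (2 * d + 1) * d ^ 2)
  generalize hD : (2 * d + 1) * d ^ 2 = D at hs hβ
  refine ⟨β + s, ?_⟩
  intro K F _ _ _ _ t ht y0 k w hw hrel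
  have hsum : ∀ I : Finset (Fin k), RelN K t D (∑ i ∈ I, w i) := by
    intro I
    have := h1 K F r d t (y0 + ∑ i ∈ I, w i) (y0 + ∑ i ∈ (∅ : Finset (Fin k)), w i) ht
      (hrel I) (hrel ∅)
    rw [hD] at this
    simpa using this
  have : CharZero (EE' K t) :=
    charZero_of_injective_algebraMap (algebraMap K (EE' K t)).injective
  obtain ⟨J, E, hk, hfd, hfr, hJ⟩ := hs (EE' K t) F k w (fun I => (h6 K F r D t _ ht (hsum I)).2)
  obtain ⟨q, hq0, hqd, hq⟩ := h3 K F r D k t w ht hsum
  have hqt : MvPolynomial.aeval t q ≠ 0 := by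
    intro h
    apply hq0
    have hinj : Function.Injective (MvPolynomial.aeval t : MvPolynomial (Fin r) K →ₐ[K] F) := ht
    apply hinj
    rw [h, map_zero]
  have hli : LinearIndependent K (fun i : Fin J.card =>
      MvPolynomial.aeval t q * w (J.equivFin.symm i)) := by
    have hc : LinearIndependent K (fun i : Fin J.card => w (J.equivFin.symm i)) :=
      hw.comp (fun i : Fin J.card => ((J.equivFin.symm i : J) : Fin k))
        (Subtype.val_injective.comp J.equivFin.symm.injective)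
    have hm := hc.map' (LinearMap.mulLeft K (MvPolynomial.aeval t q : F)) (by
      rw [LinearMap.ker_eq_bot]
      intro a b hab
      exact mul_left_cancel₀ hqt hab)
    exact hm
  have hcard := hβ K F t ht E hfd hfr J.card _ hli (by
    intro i
    refine E.mul_mem ?_ (hJ _ (J.equivFin.symm i).2)
    exact E.algebraMap_mem ⟨_, gcl_mem t q⟩) (fun i => hq _)
  omega

end Pool.Agent.H14.BF
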