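import Pool.Agent.H72.BF.Targets2

/-!
Board bf_modules (MP_3cf473_nt), module GST: adding one coordinate without creating relations of
degree at most `d`.
-/

open Polynomial Finset Filter

namespace Pool.Agent.H14.BF

open Pool.Agent.H72.BF

theorem totalDegree_le_rename {K σ τ : Type} [Field K] (f : σ → τ) (hf : Function.Injective f)
    (p : MvPolynomial σ K) : p.totalDegree ≤ (MvPolynomial.rename f p).totalDegree := by
  classical
  refine Finset.sup_le fun m hm => ?_
  have h1 : m.mapDomain f ∈ (MvPolynomial.rename f p).support := by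
    rw [MvPolynomial.mem_support_iff, MvPolynomial.coeff_rename_mapDomain f hf]
    exact MvPolynomial.mem_support_iff.1 hm
  have h2 := MvPolynomial.le_totalDegree h1
  rwa [Finsupp.sum_mapDomain_index (fun _ => rfl) (fun _ _ _ => rfl)] at h2

/-- splitting off the part divisible by the last variable -/
theorem split_last {K : Type} [Field K] (n : ℕ) (Q : MvPolynomial (Fin (n + 1)) K) :
    ∃ (Q0 : MvPolynomial (Fin n) K) (R : MvPolynomial (Fin (n + 1)) K),
      Q = MvPolynomial.rename Fin.castSucc Q0 + MvPolynomial.X (Fin.last n) * R ∧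
      Q0.totalDegree ≤ Q.totalDegree ∧ (R = 0 ∨ R.totalDegree + 1 ≤ Q.totalDegree) := by
  classical
  set M := Q.modMonomial (Finsupp.single (Fin.last n) 1) with hM
  set R := Q.divMonomial (Finsupp.single (Fin.last n) 1) with hR
  have hvars : (↑M.vars : Set (Fin (n + 1))) ⊆ Set.range (Fin.castSucc : Fin n → Fin (n + 1)) := by
    intro i hi
    rcases Fin.eq_castSucc_or_eq_last i with ⟨j, rfl⟩ | rfl
    · exact ⟨j, rfl⟩
    · exfalso
      rw [Finset.mem_coe, MvPolynomial.mem_vars_iff_mem_support] at hi
      obtain ⟨m, hm, hi2⟩ := hi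
      rw [MvPolynomial.mem_support_iff] at hm
      apply hm
      apply MvPolynomial.coeff_modMonomial_of_le
      rw [Finsupp.single_le_iff]
      rw [Finsupp.mem_support_iff] at hi2
      omega
  obtain ⟨Q0, hQ0⟩ := MvPolynomial.exists_rename_eq_of_vars_subset_range M Fin.castSucc
    (Fin.castSucc_injective n) hvars
  refine ⟨Q0, R, ?_, ?_, ?_⟩
  · have h := MvPolynomial.divMonomial_add_modMonomial_single Q (Fin.last n)
    rw [hQ0]
    exact h.symm.trans (add_comm _ _)
  · have h1 : Q0.totalDegree ≤ M.totalDegree := by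
      rw [← hQ0]
      exact totalDegree_le_rename _ (Fin.castSucc_injective n) _
    refine h1.trans ?_
    unfold MvPolynomial.totalDegree
    apply Finset.sup_mono
    intro m hm
    rw [MvPolynomial.mem_support_iff] at hm ⊢
    by_cases hle : Finsupp.single (Fin.last n) 1 ≤ m
    · exact absurd (MvPolynomial.coeff_modMonomial_of_le Q hle) hm
    · rwa [hM, MvPolynomial.coeff_modMonomial_of_not_le Q hle] at hm
  · by_cases hR0 : R = 0
    · exact Or.inl hR0
    · right
      obtain ⟨m, hm, hm2⟩ : ∃ m ∈ R.support, (m.sum fun _ e => e) = R.totalDegree := by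
        have hne : R.support.Nonempty := by
          rwa [MvPolynomial.support_nonempty]
        obtain ⟨m, hm, hm2⟩ := Finset.exists_mem_eq_sup R.support hne (fun m => m.sum fun _ e => e)
        exact ⟨m, hm, hm2.symm⟩
      rw [← hm2]
      rw [MvPolynomial.mem_support_iff, hR, MvPolynomial.coeff_divMonomial] at hm
      have h2 := MvPolynomial.le_totalDegree (MvPolynomial.mem_support_iff.2 hm)
      rw [Finsupp.sum_add_index' (fun _ => rfl) (fun _ _ _ => rfl)] at h2
      rw [Finsupp.sum_single_index rfl] at h2
      omega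

theorem finrank_restrict {K : Type} [Field K] (hS : T_SUMA) (n d : ℕ) :
    Module.finrank K (MvPolynomial.restrictTotalDegree (Fin n) K d) ≤ (n + d).choose n := by
  classical
  set e : Mon n d → MvPolynomial (Fin n) K := fun m =>
    MvPolynomial.monomial (Finsupp.equivFunOnFinite.symm fun i => (m.1 i : ℕ)) (1 : K) with he
  have hspan : MvPolynomial.restrictTotalDegree (Fin n) K d ≤
      Submodule.span K (Set.range e) := by
    intro p hp
    rw [MvPolynomial.mem_restrictTotalDegree] at hp
    rw [MvPolynomial.as_sum p]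
    refine Submodule.sum_mem _ fun m hm => ?_
    have hdeg : ∑ i, m i ≤ d := by
      have h1 := (MvPolynomial.le_totalDegree hm).trans hp
      rwa [Finsupp.sum_fintype _ _ (fun _ => rfl)] at h1
    have hi : ∀ i, m i < d + 1 := fun i =>
      Nat.lt_succ_of_le ((Finset.single_le_sum (f := fun i => m i) (fun _ _ => Nat.zero_le _)
        (Finset.mem_univ i)).trans hdeg)
    have h2 : MvPolynomial.monomial m (MvPolynomial.coeff m p) =
        (MvPolynomial.coeff m p) • e ⟨fun i => ⟨m i, hi i⟩, by simpa using hdeg⟩ := by
      rw [he]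
      simp only [MvPolynomial.smul_monomial, smul_eq_mul, mul_one]
      congr 2
      ext i
      simp
    rw [h2]
    exact Submodule.smul_mem _ _ (Submodule.subset_span ⟨_, rfl⟩)
  have hfin : FiniteDimensional K (Submodule.span K (Set.range e)) :=
    FiniteDimensional.span_of_finite K (Set.finite_range e)
  refine (Submodule.finrank_mono hspan).trans ?_
  rw [← hS.1 n d]
  exact finrank_range_le_card e

theorem gst (hspc : T_SPC) (hsum : T_SUMA) : T_GST := by
  intro K F _ _ _ _ n d x hx V hV hlt
  classical
  set k := Module.finrank K V with hk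
  let b := Module.finBasis K V
  let y : Fin (n + k) → F := Fin.append x (fun i => (b i : F))
  let Spec := {a : Fin (n + k) → K // ∀ g : MvPolynomial (Fin (n + k)) K,
    MvPolynomial.aeval y g = 0 → MvPolynomial.eval a g = 0}
  let W := MvPolynomial.restrictTotalDegree (Fin n) K d
  let φ : Spec → Module.Dual K W := fun a =>
    (MvPolynomial.aeval (fun i => a.1 (Fin.castAdd k i)) :
      MvPolynomial (Fin n) K →ₐ[K] K).toLinearMap.domRestrict W
  have hφ : ∀ (a : Spec) (P : W), φ a P =
      MvPolynomial.eval (fun i => a.1 (Fin.castAdd k i)) (P : MvPolynomial (Fin n) K) := by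
    intro a P
    simp [φ, MvPolynomial.aeval_eq_eval]
  have hyx : ∀ P : MvPolynomial (Fin n) K,
      MvPolynomial.aeval y (MvPolynomial.rename (Fin.castAdd k) P) = MvPolynomial.aeval x P := by
    intro P
    rw [MvPolynomial.aeval_rename]
    congr 2
    ext i
    simp [y]
  have hsep : ∀ P : W, (∀ a, φ a P = 0) → P = 0 := by
    intro P hP
    by_contra hne
    have h1 : MvPolynomial.aeval y (MvPolynomial.rename (Fin.castAdd k)
        (P : MvPolynomial (Fin n) K)) ≠ 0 := by
      rw [hyx]
      intro h0
      apply hne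
      have := hx P ((MvPolynomial.mem_restrictTotalDegree _ _ _).1 P.2) h0
      exact Subtype.ext this
    obtain ⟨a, ha, ha2⟩ := hspc K F (n + k) y _ h1
    apply ha2
    have h2 := hP ⟨a, ha⟩
    rw [hφ] at h2
    rw [MvPolynomial.eval_rename]
    exact h2
  obtain ⟨b', hb'sub, hb'span, hb'li⟩ := exists_linearIndependent K (Set.range φ)
  have hfinb : Finite b' := hb'li.finite_of_isNoetherian
  have := Fintype.ofFinite b'
  have hch : ∀ β : b', ∃ a : Spec, φ a = β := fun β => hb'sub β.2
  choose a ha using hch
  let L : V →ₗ[K] (b' → K) :=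
    LinearMap.pi fun β => ∑ i, ((a β).1 (Fin.natAdd n i)) • b.coord i
  have hL : ∀ (z : V) (β : b'), L z β = ∑ i, (a β).1 (Fin.natAdd n i) * b.repr z i := by
    intro z β
    simp [L]
  have hcard : Module.finrank K (b' → K) < Module.finrank K V := by
    rw [Module.finrank_fintype_fun_eq_card]
    have h1 : Fintype.card b' ≤ Module.finrank K (Module.Dual K W) :=
      hb'li.fintype_card_le_finrank
    rw [Subspace.dual_finrank_eq] at h1
    have h2 : Module.finrank K W ≤ (n + d).choose n := finrank_restrict (K := K) hsum n d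
    have h3 : (n + d).choose n = (n + d).choose d := Nat.choose_symm_add
    omega
  have hker : LinearMap.ker L ≠ ⊥ := LinearMap.ker_ne_bot_of_finrank_lt hcard
  obtain ⟨z0, hz0, hz0ne⟩ := Submodule.exists_mem_ne_zero_of_ne_bot hker
  rw [LinearMap.mem_ker] at hz0
  have hzne : (z0 : F) ≠ 0 := by
    intro h
    exact hz0ne (Subtype.ext h)
  have hkey : ∀ (Q0 : MvPolynomial (Fin n) K) (R : MvPolynomial (Fin (n + 1)) K),
      Q0.totalDegree ≤ d → MvPolynomial.aeval x Q0 +
        (z0 : F) * MvPolynomial.aeval (Fin.snoc x (z0 : F) : Fin (n + 1) → F) R = 0 → Q0 = 0 := by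
    intro Q0 R hQ0 h0
    let Z : MvPolynomial (Fin (n + k)) K :=
      ∑ i, MvPolynomial.C (b.repr z0 i) * MvPolynomial.X (Fin.natAdd n i)
    have hZ : MvPolynomial.aeval y Z = (z0 : F) := by
      have h1 : (z0 : F) = ∑ i, (b.repr z0 i) • (b i : F) := by
        refine (congrArg Subtype.val (b.sum_repr z0)).symm.trans ?_
        simp only [Submodule.coe_sum, Submodule.coe_smul]
      rw [h1]
      simp only [Z, map_sum, map_mul, MvPolynomial.aeval_C, MvPolynomial.aeval_X, y,
        Fin.append_right, Algebra.smul_def]
    let G : MvPolynomial (Fin (n + k)) K := MvPolynomial.rename (Fin.castAdd k) Q0 +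
      Z * MvPolynomial.aeval (Fin.snoc (fun i => MvPolynomial.X (Fin.castAdd k i)) Z :
        Fin (n + 1) → MvPolynomial (Fin (n + k)) K) R
    have hG : MvPolynomial.aeval y G = 0 := by
      simp only [G, map_add, map_mul]
      rw [hyx, hZ, ← h0]
      congr 2
      rw [← AlgHom.comp_apply, MvPolynomial.comp_aeval]
      congr 2
      ext i
      refine Fin.lastCases ?_ (fun j => ?_) i
      · simp [hZ]
      · simp [y]
    have hval : ∀ β : b', φ (a β) ⟨Q0, (MvPolynomial.mem_restrictTotalDegree _ _ _).2 hQ0⟩ = 0 := by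
      intro β
      have h1 := (a β).2 G hG
      have h2 : MvPolynomial.eval (a β).1 Z = 0 := by
        have h3 := congrFun hz0 β
        rw [hL] at h3
        simp only [Z, map_sum, map_mul, MvPolynomial.eval_C, MvPolynomial.eval_X]
        rw [Pi.zero_apply] at h3
        exact (Finset.sum_congr rfl fun i _ => mul_comm _ _).trans h3
      simp only [G, map_add, map_mul, h2, zero_mul, add_zero, MvPolynomial.eval_rename] at h1
      rw [hφ]
      exact h1
    have hall : ∀ s : Spec, φ s ⟨Q0, (MvPolynomial.mem_restrictTotalDegree _ _ _).2 hQ0⟩ = 0 := by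
      intro s
      have hs : φ s ∈ Submodule.span K b' := by
        rw [hb'span]
        exact Submodule.subset_span ⟨s, rfl⟩
      refine Submodule.span_induction (p := fun ψ _ =>
        ψ (⟨Q0, (MvPolynomial.mem_restrictTotalDegree _ _ _).2 hQ0⟩ : W) = 0) ?_ ?_ ?_ ?_ hs
      · intro ψ hψ
        have := hval ⟨ψ, hψ⟩
        rwa [ha] at this
      · simp
      · intro u v _ _ hu hv
        simp [hu, hv]
      · intro c u _ hu
        simp [hu]
    have := hsep _ hall
    exact congrArg Subtype.val this
  refine ⟨z0, z0.2, hzne, ?_⟩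
  have hind : ∀ e : ℕ, e ≤ d → ∀ Q : MvPolynomial (Fin (n + 1)) K, Q.totalDegree ≤ e →
      MvPolynomial.aeval (Fin.snoc x (z0 : F) : Fin (n + 1) → F) Q = 0 → Q = 0 := by
    intro e
    induction e with
    | zero =>
      intro he Q hQ h0
      obtain ⟨Q0, R, hQR, hQ0, hR⟩ := split_last n Q
      have hR0 : R = 0 := by
        rcases hR with h | h
        · exact h
        · omega
      have hev : MvPolynomial.aeval x Q0 + (z0 : F) *
          MvPolynomial.aeval (Fin.snoc x (z0 : F) : Fin (n + 1) → F) R = 0 := by
        rw [hQR] at h0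
        simp only [map_add, map_mul, MvPolynomial.aeval_X, Fin.snoc_last,
          MvPolynomial.aeval_rename] at h0
        rw [← h0]
        congr 3
        ext i
        simp
      have h1 := hkey Q0 R (hQ0.trans (hQ.trans he)) hev
      rw [hQR, h1, hR0]
      simp
    | succ e ih =>
      intro he Q hQ h0
      obtain ⟨Q0, R, hQR, hQ0, hR⟩ := split_last n Q
      have hev : MvPolynomial.aeval x Q0 + (z0 : F) *
          MvPolynomial.aeval (Fin.snoc x (z0 : F) : Fin (n + 1) → F) R = 0 := by
        rw [hQR] at h0
        simp only [map_add, map_mul, MvPolynomial.aeval_X, Fin.snoc_last,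
          MvPolynomial.aeval_rename] at h0
        rw [← h0]
        congr 3
        ext i
        simp
      have h1 := hkey Q0 R (hQ0.trans (hQ.trans he)) hev
      rw [h1, map_zero, zero_add] at hev
      have h2 := (mul_eq_zero.1 hev).resolve_left hzne
      have hR0 : R = 0 := by
        rcases hR with h | h
        · exact h
        · exact ih (by omega) R (by omega) h2
      rw [hQR, h1, hR0]
      simp
  exact fun Q hQ h0 => hind d le_rfl Q hQ h0

end Pool.Agent.H14.BF
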