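import Pool.Agent.H72.BF.Targets2

/-!
Board bf_modules (MP_3cf473_nt), module GTA: the algebraic form of theorem (G).
-/

open Polynomial Finset Filter

namespace Pool.Agent.H14.BF

open Pool.Agent.H72.BF

/-- the monomial as a finitely supported function -/
noncomputable def mon {n d : ℕ} (α : Mon n d) : Fin n →₀ ℕ :=
  Finsupp.equivFunOnFinite.symm fun i => (α.1 i : ℕ)

theorem mon_apply {n d : ℕ} (α : Mon n d) (i : Fin n) : mon α i = (α.1 i : ℕ) := by
  simp [mon]

theorem mon_inj {n d : ℕ} {α β : Mon n d} (h : mon α = mon β) : α = β := by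
  apply Subtype.ext
  ext i
  rw [← mon_apply, ← mon_apply, h]

theorem mon_surj {n d : ℕ} (m : Fin n →₀ ℕ) (h : (m.sum fun _ e => e) ≤ d) :
    ∃ α : Mon n d, mon α = m := by
  have hdeg : ∑ i, m i ≤ d := by
    rwa [Finsupp.sum_fintype _ _ (fun _ => rfl)] at h
  have hi : ∀ i, m i < d + 1 := fun i =>
    Nat.lt_succ_of_le ((Finset.single_le_sum (f := fun i => m i) (fun _ _ => Nat.zero_le _)
      (Finset.mem_univ i)).trans hdeg)
  refine ⟨⟨fun i => ⟨m i, hi i⟩, by simpa using hdeg⟩, ?_⟩
  ext i
  simp [mon]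

theorem mon_deg {n d : ℕ} (α : Mon n d) : ((mon α).sum fun _ e => e) ≤ d := by
  rw [Finsupp.sum_fintype _ _ (fun _ => rfl)]
  have := α.2
  simpa [mon] using this

theorem sum_mon {k : Type} [Field k] {n d : ℕ} (P : MvPolynomial (Fin n) k)
    (hP : P.totalDegree ≤ d) :
    P = ∑ α : Mon n d, MvPolynomial.monomial (mon α) (MvPolynomial.coeff (mon α) P) := by
  classical
  ext m
  rw [MvPolynomial.coeff_sum]
  simp only [MvPolynomial.coeff_monomial]
  by_cases hm : (m.sum fun _ e => e) ≤ d
  · obtain ⟨β, rfl⟩ := mon_surj m hm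
    rw [Finset.sum_eq_single β]
    · simp
    · intro α _ hne
      rw [if_neg]
      intro h
      exact hne (mon_inj h)
    · intro h
      exact absurd (Finset.mem_univ _) h
  · have h0 : MvPolynomial.coeff m P = 0 := by
      by_contra hne
      exact hm ((MvPolynomial.le_totalDegree (MvPolynomial.mem_support_iff.2 hne)).trans hP)
    rw [h0, Finset.sum_eq_zero]
    intro α _
    rw [if_neg]
    rintro rfl
    exact hm (mon_deg α)

theorem aeval_mon {k F : Type} [Field k] [Field F] [Algebra k F] {n d : ℕ} (x : Fin n → F)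
    (a : Mon n d → k) :
    MvPolynomial.aeval x (∑ α : Mon n d, MvPolynomial.monomial (mon α) (a α)) =
      ∑ α : Mon n d, algebraMap k F (a α) * ∏ i, x i ^ (α.1 i : ℕ) := by
  rw [map_sum]
  refine Finset.sum_congr rfl fun α _ => ?_
  rw [MvPolynomial.aeval_monomial, Finsupp.prod_fintype _ _ (fun i => pow_zero _)]
  simp only [mon_apply]

theorem gta (hgal : T_GAL) (hhyp : T_HYP) (hsum : T_SUMA) : T_GTA := by
  intro k K F _ _ _ _ _ _ _ _ N M d x0 y hli hle
  classical
  obtain ⟨c, hc⟩ := hgal K F N M d x0 y hli hle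
  let g : Mon (N + 1) d → MvPolynomial (Fin N × Fin M) F := fun α =>
    MvPolynomial.C (x0 ^ (α.1 0 : ℕ)) * ∏ i : Fin N,
      (∑ j, MvPolynomial.X (i, j) * MvPolynomial.C (y j)) ^ (α.1 i.succ : ℕ)
  have hg : ∀ (u : Fin N × Fin M → F) (α : Mon (N + 1) d), MvPolynomial.eval u (g α) =
      ∏ i, (Fin.cons x0 (fun i => ∑ j, u (i, j) * y j) : Fin (N + 1) → F) i ^ (α.1 i : ℕ) := by
    intro u α
    rw [Fin.prod_univ_succ]
    simp [g]
  have hind : LinearIndependent K (fun α =>
      MvPolynomial.eval (fun i => algebraMap K F (c i.1 i.2)) (g α)) := by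
    rw [Fintype.linearIndependent_iff]
    intro a ha
    have h1 : MvPolynomial.aeval (Fin.cons x0 (fun i => ∑ j, algebraMap K F (c i j) * y j) :
        Fin (N + 1) → F) (∑ α : Mon (N + 1) d, MvPolynomial.monomial (mon α) (a α)) = 0 := by
      rw [aeval_mon, ← ha]
      refine Finset.sum_congr rfl fun α _ => ?_
      rw [hg, Algebra.smul_def]
    have h2 : (∑ α : Mon (N + 1) d, MvPolynomial.monomial (mon α) (a α)).totalDegree ≤ d := by
      refine MvPolynomial.totalDegree_finsetSum_le fun α _ => ?_
      exact (MvPolynomial.totalDegree_monomial_le _ _).trans (mon_deg α)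
    have h3 := hc _ h2 h1
    intro β
    have h4 := congrArg (MvPolynomial.coeff (mon β)) h3
    rw [MvPolynomial.coeff_sum] at h4
    simp only [MvPolynomial.coeff_monomial, MvPolynomial.coeff_zero] at h4
    rw [Finset.sum_eq_single β] at h4
    · simpa using h4
    · intro α _ hne
      rw [if_neg]
      intro h
      exact hne (mon_inj h)
    · intro h
      exact absurd (Finset.mem_univ _) h
  obtain ⟨Ψ, hΨ0, hΨs, hΨv⟩ := hhyp k K F (Mon (N + 1) d) (Fin N × Fin M) g
    (fun i => c i.1 i.2) hind
  refine ⟨Ψ, hΨ0, ?_, ?_⟩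
  · intro i m hm
    obtain ⟨mm, hmm, rfl⟩ := hΨs m (MvPolynomial.mem_support_iff.2 hm)
    rw [map_sum, ← hsum.2 N d i.succ]
    refine Finset.sum_congr rfl fun α _ => ?_
    have hwh : MvPolynomial.IsWeightedHomogeneous (fun x : Fin N × Fin M =>
        if x.1 = i then 1 else 0) (g α) (α.1 i.succ : ℕ) := by
      have h1 : ∀ i' : Fin N, MvPolynomial.IsWeightedHomogeneous (fun x : Fin N × Fin M =>
          if x.1 = i then 1 else 0)
          ((∑ j, MvPolynomial.X (i', j) * MvPolynomial.C (y j)) ^ (α.1 i'.succ : ℕ) :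
            MvPolynomial (Fin N × Fin M) F)
          ((α.1 i'.succ : ℕ) • (if i' = i then 1 else 0)) := by
        intro i'
        refine MvPolynomial.IsWeightedHomogeneous.pow ?_ _
        refine MvPolynomial.IsWeightedHomogeneous.sum _ _ _ fun j _ => ?_
        have h2 := (MvPolynomial.isWeightedHomogeneous_X F (fun x : Fin N × Fin M =>
          if x.1 = i then 1 else 0) (i', j)).mul
          (MvPolynomial.isWeightedHomogeneous_C (fun x : Fin N × Fin M =>
          if x.1 = i then 1 else 0) (y j))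
        simpa using h2
      have h3 := (MvPolynomial.isWeightedHomogeneous_C (fun x : Fin N × Fin M =>
          if x.1 = i then 1 else 0) (x0 ^ (α.1 0 : ℕ))).mul
        (MvPolynomial.IsWeightedHomogeneous.prod Finset.univ _ _ (fun i' _ => h1 i'))
      have h4 : (0 + ∑ i' : Fin N, (α.1 i'.succ : ℕ) • (if i' = i then 1 else 0)) =
          (α.1 i.succ : ℕ) := by simp
      rw [h4] at h3
      exact h3
    exact hwh (MvPolynomial.mem_support_iff.1 (hmm α))
  · intro v hv
    obtain ⟨P, hP0, hPd, hPe⟩ := hv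
    have hnli : ¬ LinearIndependent K (fun α =>
        MvPolynomial.eval (fun i : Fin N × Fin M => algebraMap k F (v i.1 i.2)) (g α)) := by
      intro hl
      rw [Fintype.linearIndependent_iff] at hl
      have h1 := hl (fun α => algebraMap k K (MvPolynomial.coeff (mon α) P)) (by
        have h2 := aeval_mon (F := F) (Fin.cons x0 (fun i => ∑ j, algebraMap k F (v i j) * y j) :
          Fin (N + 1) → F) (fun α : Mon (N + 1) d => MvPolynomial.coeff (mon α) P)
        rw [← sum_mon P hPd, hPe] at h2
        refine Eq.trans ?_ h2.symm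
        refine Finset.sum_congr rfl fun α _ => ?_
        rw [hg, Algebra.smul_def, ← IsScalarTower.algebraMap_apply])
      apply hP0
      rw [sum_mon P hPd]
      refine Finset.sum_eq_zero fun α _ => ?_
      have h3 := h1 α
      rw [map_eq_zero] at h3
      rw [h3, map_zero]
    have h4 := hΨv (fun x => v x.1 x.2) hnli
    exact h4

end Pool.Agent.H14.BF
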