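import Pool.Agent.H72.BF.Targets4

open Polynomial Finset Filter

namespace Pool.Agent.H14.BF

open Pool.Agent.H72.BF

/-- write a relation as a polynomial in the last variable -/
theorem rfi_poly {K F : Type} [Field K] [Field F] [Algebra K F] {r D : ℕ} {t : Fin r → F}
    {y : F} (h : RelN K t D y) :
    ∃ P : Polynomial (MvPolynomial (Fin r) K), P ≠ 0 ∧
      (∀ j, P.coeff j ≠ 0 → (P.coeff j).totalDegree + j ≤ D) ∧
      P.eval₂ (MvPolynomial.aeval t : MvPolynomial (Fin r) K →ₐ[K] F).toRingHom y = 0 := by
  obtain ⟨Q, hQ0, hQd, hQ⟩ := h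
  refine ⟨MvPolynomial.finSuccEquiv K r (MvPolynomial.rename (finRotate (r + 1)) Q), ?_, ?_, ?_⟩
  · rw [Ne, EmbeddingLike.map_eq_zero_iff]
    intro h0
    apply hQ0
    apply MvPolynomial.rename_injective (finRotate (r + 1)) (finRotate (r + 1)).injective
    rw [h0, map_zero]
  · intro j hj
    refine le_trans (MvPolynomial.totalDegree_coeff_finSuccEquiv_add_le _ _ hj) ?_
    exact le_trans (MvPolynomial.totalDegree_rename_le _ _) hQd
  · have key : ∀ R : MvPolynomial (Fin (r + 1)) K,
        (MvPolynomial.finSuccEquiv K r R).eval₂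
          (MvPolynomial.aeval t : MvPolynomial (Fin r) K →ₐ[K] F).toRingHom y =
        MvPolynomial.aeval (Fin.cons y t : Fin (r + 1) → F) R := by
      intro R
      induction R using MvPolynomial.induction_on with
      | C a => simp [MvPolynomial.finSuccEquiv_apply]
      | add p q hp hq => rw [map_add, Polynomial.eval₂_add, hp, hq, map_add]
      | mul_X p i hp =>
        rw [map_mul, Polynomial.eval₂_mul, hp, map_mul]
        congr 1
        refine Fin.cases ?_ (fun i => ?_) i
        · simp [MvPolynomial.finSuccEquiv_X_zero]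
        · simp [MvPolynomial.finSuccEquiv_X_succ]
    rw [key, MvPolynomial.aeval_rename]
    rw [Fin.snoc_eq_cons_rotate] at hQ
    exact hQ

theorem rfi : T_RFI := by
  intro K F _ _ _ r D t y ht hrel
  obtain ⟨P, hP0, hPd, hPe⟩ := rfi_poly hrel
  have hinj : Function.Injective (MvPolynomial.aeval t : MvPolynomial (Fin r) K →ₐ[K] F) := ht
  have hlc : P.leadingCoeff ≠ 0 := Polynomial.leadingCoeff_ne_zero.mpr hP0
  have hlc' : P.coeff P.natDegree ≠ 0 := hlc
  have hdeg := hPd _ hlc'
  have ha : MvPolynomial.aeval t (P.coeff P.natDegree) ≠ 0 := by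
    intro h
    apply hlc'
    apply hinj
    rw [h, map_zero]
  rw [Polynomial.eval₂_eq_sum_range] at hPe
  have hPe' : ∑ i ∈ range (P.natDegree + 1), MvPolynomial.aeval t (P.coeff i) * y ^ i = 0 := hPe
  have he : P.natDegree ≠ 0 := by
    intro h0
    rw [h0] at hPe' ha
    simp at hPe'
    exact ha hPe'
  constructor
  · refine ⟨P.coeff P.natDegree, hlc', by omega, ?_⟩
    obtain ⟨e, he'⟩ := Nat.exists_eq_succ_of_ne_zero he
    refine ⟨e + 1, fun i => if i = 0 then 1 else if i ≤ e + 1 then
      P.coeff (e + 1 - i) * P.coeff P.natDegree ^ (i - 1) else 0, by simp, ?_, ?_⟩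
    · intro i
      by_cases hi0 : i = 0
      · simp [hi0]
      · by_cases hi : i ≤ e + 1
        · simp only [hi0, hi, if_true, if_false]
          by_cases hc : P.coeff (e + 1 - i) = 0
          · simp [hc]
          · have h1 := hPd _ hc
            have h2 : (P.coeff P.natDegree ^ (i - 1)).totalDegree ≤ (i - 1) * D := by
              refine le_trans (MvPolynomial.totalDegree_pow _ _) ?_
              exact Nat.mul_le_mul_left _ (by omega)
            refine le_trans (MvPolynomial.totalDegree_mul _ _) ?_
            obtain ⟨i', rfl⟩ := Nat.exists_eq_succ_of_ne_zero hi0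
            simp only [Nat.succ_eq_add_one, Nat.add_sub_cancel] at h2 ⊢
            nlinarith
        · simp [hi0, hi]
    · rw [Finset.sum_range_succ']
      have h1 : ∀ i ∈ range (e + 1),
          MvPolynomial.aeval t (if i + 1 = 0 then (1 : MvPolynomial (Fin r) K) else
            if i + 1 ≤ e + 1 then
              P.coeff (e + 1 - (i + 1)) * P.coeff P.natDegree ^ (i + 1 - 1) else 0) *
            (MvPolynomial.aeval t (P.coeff P.natDegree) * y) ^ (e + 1 - (i + 1)) =
          MvPolynomial.aeval t (P.coeff P.natDegree) ^ e *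
            (MvPolynomial.aeval t (P.coeff (e + 1 - 1 - i)) * y ^ (e + 1 - 1 - i)) := by
        intro i hi
        have hi' : i ≤ e := by
          have := Finset.mem_range.mp hi
          omega
        rw [if_neg (by omega), if_pos (by omega)]
        have e1 : e + 1 - (i + 1) = e - i := by omega
        have e2 : e + 1 - 1 - i = e - i := by omega
        have e3 : i + 1 - 1 = i := by omega
        have e4 : e = i + (e - i) := by omega
        rw [e1, e2, e3, map_mul, map_pow, mul_pow]
        conv_rhs => rw [e4, pow_add]
        have e5 : i + (e - i) - i = e - i := by omega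
        rw [e5]
        ring
      rw [Finset.sum_congr rfl h1, ← Finset.mul_sum,
        Finset.sum_range_reflect (fun j => MvPolynomial.aeval t (P.coeff j) * y ^ j) (e + 1)]
      simp only [if_true, map_one, Nat.sub_zero, one_mul]
      rw [he', Nat.succ_eq_add_one, Finset.sum_range_succ] at hPe'
      rw [he', Nat.succ_eq_add_one]
      have : (MvPolynomial.aeval t (P.coeff (e + 1)) * y) ^ (e + 1) =
        MvPolynomial.aeval t (P.coeff (e + 1)) ^ e *
          (MvPolynomial.aeval t (P.coeff (e + 1)) * y ^ (e + 1)) := by ring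
      rw [this, ← mul_add, hPe', mul_zero]
  · let t' : Fin r → EE' K t := fun i =>
      ⟨t i, IntermediateField.subset_adjoin K _ (Set.mem_range_self i)⟩
    let f : MvPolynomial (Fin r) K →ₐ[K] EE' K t := MvPolynomial.aeval t'
    have hf : ∀ p, ((f p : EE' K t) : F) = MvPolynomial.aeval t p := by
      intro p
      have : ((EE' K t).val.comp f) = MvPolynomial.aeval t := by
        apply MvPolynomial.algHom_ext
        intro i
        simp [f, t']
      exact congrArg (fun g : MvPolynomial (Fin r) K →ₐ[K] F => g p) this
    refine ⟨P.map f.toRingHom, ?_, ?_, ?_⟩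
    · intro h0
      have h1 : (P.map f.toRingHom).coeff P.natDegree = 0 := by rw [h0]; simp
      rw [Polynomial.coeff_map] at h1
      apply ha
      rw [← hf]
      have h2 : f (P.coeff P.natDegree) = 0 := h1
      rw [h2]
      simp
    · refine le_trans (Polynomial.natDegree_map_le) (by omega)
    · rw [Polynomial.aeval_def, Polynomial.eval₂_map, Polynomial.eval₂_eq_sum_range]
      rw [← hPe']
      refine Finset.sum_congr rfl ?_
      intro i _
      congr 1
      exact hf _

end Pool.Agent.H14.BF
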